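import Pool.Agent.H68.GHK.Targets
import Pool.Agent.H69.GK.VOK
import Pool.Agent.H69.GK.QRD
import Pool.Agent.H14.GHK.EPD

/-!
Row VOK of the board ghk (MP_52e316_nt): the volume of the matrices near a flag.
-/

set_option autoImplicit false

namespace Pool.Agent.H96.GHK

open MeasureTheory Pool.Agent.H68.GHK
open Pool.Agent.H34.GM hiding bt
open Pool.Agent.H69.GK (gp vk exists_qr)
open Pool.Agent.H14.GHK (cl Ep Ep_le Ep_mulVec)

lemma EP_eq {m : ℕ} (w : Mat m) {j : ℕ} (h : j ≤ m) : EP j w = Ep w j := by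
  unfold EP
  rw [dif_pos h, Ep_le w h]
  rfl

lemma ent_le {m : ℕ} (w : Mat m) (i l : Fin m) : |w i l| ≤ sz w := by
  have h5 : ‖w i‖ ≤ sz w := norm_le_pi_norm (f := ((fun i j => w i j) : V m)) i
  exact (norm_le_pi_norm (f := w i) l).trans h5

lemma sz_nn {m : ℕ} (w : Mat m) : 0 ≤ sz w := norm_nonneg _

lemma sz_le {m : ℕ} {X : Mat m} {c : ℝ} (hc : 0 ≤ c) (h : ∀ i l, |X i l| ≤ c) : sz X ≤ c := by
  unfold sz
  exact (pi_norm_le_iff_of_nonneg hc).mpr fun i =>
    (pi_norm_le_iff_of_nonneg hc).mpr fun l => h i l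

lemma mul_le {m : ℕ} (a b : Mat m) : sz (a * b) ≤ m * (sz a * sz b) := by
  have h0 : 0 ≤ m * (sz a * sz b) :=
    mul_nonneg (Nat.cast_nonneg _) (mul_nonneg (sz_nn a) (sz_nn b))
  refine sz_le h0 fun i l => ?_
  rw [Matrix.mul_apply]
  calc |∑ j, a i j * b j l| ≤ ∑ j, |a i j * b j l| := Finset.abs_sum_le_sum_abs _ _
    _ ≤ ∑ _j : Fin m, sz a * sz b := by
        refine Finset.sum_le_sum fun j _ => ?_
        rw [abs_mul]
        exact mul_le_mul (ent_le a i j) (ent_le b j l) (abs_nonneg _) (sz_nn a)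
    _ = m * (sz a * sz b) := by simp

lemma sz_sub {m : ℕ} (a b : Mat m) : sz (a - b) = sz (b - a) := by
  have h : ((fun i j => (a - b) i j) : V m) = -((fun i j => (b - a) i j) : V m) := by
    funext i j
    simp
  unfold sz
  rw [h, norm_neg]

lemma row_zero {m : ℕ} {w u a : Mat m} (hu : u.transpose * u = 1) (hw : w = u * a)
    (ha : ∀ i j : Fin m, j < i → a i j = 0) {j : ℕ} (h : j ≤ m) (i : Fin m) (hi : j ≤ (i : ℕ))
    (k : Fin m) : (u.transpose * EP j w) i k = 0 := by
  have h1 : u.transpose * w = a := by rw [hw, ← Matrix.mul_assoc, hu, Matrix.one_mul]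
  have h2 : u.transpose * cl w h = cl a h := by
    rw [← h1]
    rfl
  rw [EP_eq w h, Ep_le w h, ← Matrix.mul_assoc, ← Matrix.mul_assoc, h2, Matrix.mul_assoc,
    Matrix.mul_apply]
  refine Finset.sum_eq_zero fun c _ => ?_
  have h3 : cl a h i c = 0 := ha i (Fin.castLE h c) (by
    rw [Fin.lt_def]
    exact lt_of_lt_of_le c.2 hi)
  rw [h3, zero_mul]

lemma ent_flag {m : ℕ} {w u a w' : Mat m} (hu : u * u.transpose = 1) (hw : w = u * a)
    (ha : ∀ i j : Fin m, j < i → a i j = 0) (hw' : w'.det ≠ 0) {j : ℕ} (h : j ≤ m)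
    (i l : Fin m) (hi : j ≤ (i : ℕ)) (hl : (l : ℕ) < j) :
    |(u.transpose * w') i l| ≤ m * (m * (sz (EP j w - EP j w') * sz w')) := by
  have hu2 : u.transpose * u = 1 := mul_eq_one_comm.mp hu
  have h1 : (u.transpose * ((EP j w' - EP j w) * w')) i l = (u.transpose * w') i l := by
    have h2 : (u.transpose * ((EP j w' - EP j w) * w')) i l =
        (u.transpose * (EP j w' * w')) i l - (u.transpose * EP j w * w') i l := by
      rw [Matrix.sub_mul, Matrix.mul_sub, Matrix.sub_apply, Matrix.mul_assoc]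
    have h3 : (u.transpose * EP j w * w') i l = 0 := by
      rw [Matrix.mul_apply]
      refine Finset.sum_eq_zero fun k _ => ?_
      rw [row_zero hu2 hw ha h i hi k, zero_mul]
    have h4 : (u.transpose * (EP j w' * w')) i l = (u.transpose * w') i l := by
      rw [Matrix.mul_apply, Matrix.mul_apply]
      refine Finset.sum_congr rfl fun k _ => ?_
      have h5 : (EP j w' * w') k l = w' k l := by
        rw [EP_eq w' h]
        exact congrFun (Ep_mulVec hw' h l hl) k
      rw [h5]
    rw [h2, h3, h4, sub_zero]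
  rw [← h1]
  have hu3 : u.transpose.transpose * u.transpose = 1 := by
    rw [Matrix.transpose_transpose]
    exact hu
  refine (Pool.Agent.H69.GK.mul_ent hu3 i l).trans ?_
  refine mul_le_mul_of_nonneg_left ?_ (Nat.cast_nonneg _)
  rw [sz_sub (EP j w)]
  exact mul_le _ _

/-- the imaginary part at the place `j` -/
noncomputable def im {m : ℕ} (mu : Fin m → ℂ) (j : ℕ) : ℝ :=
  if h : j < m then (mu ⟨j, h⟩).im else 0

lemma im_fin {m : ℕ} (mu : Fin m → ℂ) (j : Fin m) : im mu (j : ℕ) = (mu j).im := by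
  unfold im
  rw [dif_pos j.2]

lemma tele {m : ℕ} (mu : Fin m → ℂ) (l n : ℕ) (hl : l ≤ n) (hn : n < m) :
    im mu n - im mu l = ∑ j ∈ Finset.Ioc l n, 2 * bt mu j := by
  induction n, hl using Nat.le_induction with
  | base => simp
  | succ n hln ih =>
    rw [Finset.sum_Ioc_succ_top hln, ← ih (by omega)]
    have h1 : bt mu (n + 1) = (im mu (n + 1) - im mu n) / 2 := by
      unfold bt im
      rw [dif_pos (⟨by omega, hn⟩ : 1 ≤ n + 1 ∧ n + 1 < m), dif_pos hn,
        dif_pos (by omega : n < m)]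
      rfl
    rw [h1]
    ring

lemma bt_nn {m : ℕ} {mu : Fin m → ℂ} (hmu : Monotone (fun j => (mu j).im)) (j : ℕ) :
    0 ≤ bt mu j := by
  unfold bt
  split_ifs with h
  · have h1 : (mu ⟨j - 1, by omega⟩).im ≤ (mu ⟨j, h.2⟩).im := hmu (by
      rw [Fin.le_def]
      exact Nat.sub_le _ _)
    linarith
  · exact le_refl _

lemma Gg_nn {m : ℕ} {mu : Fin m → ℂ} (hmu : Monotone (fun j => (mu j).im)) (w w' : Mat m) :
    0 ≤ Gg mu w w' :=
  Finset.sum_nonneg fun j _ => mul_nonneg (bt_nn hmu j) (sz_nn _)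

lemma gp_le {m : ℕ} {mu : Fin m → ℂ} (hmu : Monotone (fun j => (mu j).im)) {w u a w' : Mat m}
    (hu : u * u.transpose = 1) (hw : w = u * a) (ha : ∀ i j : Fin m, j < i → a i j = 0)
    (hw' : w'.det ≠ 0) (i l : Fin m) :
    gp (fun j => (mu j).im) i l * |(u.transpose * w') i l| ≤
      2 * (m * m) * sz w' * Gg mu w w' := by
  have hG := Gg_nn hmu w w'
  have hR : 0 ≤ 2 * (m * m) * sz w' * Gg mu w w' :=
    mul_nonneg (mul_nonneg (by positivity) (sz_nn w')) hG
  by_cases hil : i ≤ l
  · have h1 : gp (fun j => (mu j).im) i l = 0 := by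
      unfold gp
      exact max_eq_left (sub_nonpos.mpr (hmu hil))
    rw [h1, zero_mul]
    exact hR
  · have hli : l < i := not_le.mp hil
    have h1 : gp (fun j => (mu j).im) i l = ∑ j ∈ Finset.Ioc (l : ℕ) i, 2 * bt mu j := by
      rw [← tele mu l i (Fin.lt_def.mp hli).le i.2, im_fin, im_fin]
      unfold gp
      exact max_eq_right (sub_nonneg.mpr (hmu hli.le))
    rw [h1, Finset.sum_mul]
    have h2 : ∀ j ∈ Finset.Ioc (l : ℕ) i, 2 * bt mu j * |(u.transpose * w') i l| ≤
        2 * (m * m) * sz w' * (bt mu j * sz (EP j w - EP j w')) := by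
      intro j hj
      rw [Finset.mem_Ioc] at hj
      have h3 := ent_flag hu hw ha hw' (hj.2.trans i.2.le) i l hj.2 hj.1
      calc 2 * bt mu j * |(u.transpose * w') i l| ≤
          2 * bt mu j * (m * (m * (sz (EP j w - EP j w') * sz w'))) :=
            mul_le_mul_of_nonneg_left h3 (mul_nonneg zero_le_two (bt_nn hmu j))
        _ = 2 * (m * m) * sz w' * (bt mu j * sz (EP j w - EP j w')) := by ring
    refine (Finset.sum_le_sum h2).trans ?_
    rw [← Finset.mul_sum]
    refine mul_le_mul_of_nonneg_left ?_ (mul_nonneg (by positivity) (sz_nn w'))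
    unfold Gg
    refine Finset.sum_le_sum_of_subset_of_nonneg (fun j hj => ?_) fun j _ _ =>
      mul_nonneg (bt_nn hmu j) (sz_nn _)
    rw [Finset.mem_Ioc] at hj
    rw [Finset.mem_range]
    exact lt_of_le_of_lt hj.2 i.2

lemma det_ne {m : ℕ} (hm1 : 1 ≤ m) (w : Mat m)
    (hw : sz (w.transpose * w - 1) ≤ 1 / (4 * m)) : w.det ≠ 0 := by
  have hm0 : (1 : ℝ) ≤ m := by exact_mod_cast hm1
  have hq : 1 / (4 * (m : ℝ)) ≤ 1 / 4 := by
    rw [div_le_div_iff₀ (by positivity) (by norm_num)]
    linarith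
  intro h0
  have hS : (w.transpose * w).det ≠ 0 := by
    refine det_ne_zero_of_sum_row_lt_diag fun k => ?_
    have h1 : ∑ j ∈ Finset.univ.erase k, ‖(w.transpose * w) k j‖ ≤ 1 / 4 := by
      have h2 : ∀ j ∈ Finset.univ.erase k, ‖(w.transpose * w) k j‖ ≤ 1 / (4 * (m : ℝ)) := by
        intro j hj
        have hjk : k ≠ j := fun h => (Finset.ne_of_mem_erase hj) h.symm
        have h3 := (ent_le (w.transpose * w - 1) k j).trans hw
        rw [Matrix.sub_apply, Matrix.one_apply_ne hjk, sub_zero] at h3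
        exact h3
      refine (Finset.sum_le_card_nsmul _ _ _ h2).trans ?_
      have h4 : ((Finset.univ.erase k).card : ℝ) ≤ m := by
        have h5 := Finset.card_erase_le (s := (Finset.univ : Finset (Fin m))) (a := k)
        rw [Finset.card_fin] at h5
        exact_mod_cast h5
      rw [nsmul_eq_mul]
      calc ((Finset.univ.erase k).card : ℝ) * (1 / (4 * (m : ℝ))) ≤ m * (1 / (4 * (m : ℝ))) :=
            mul_le_mul_of_nonneg_right h4 (by positivity)
        _ = 1 / 4 := by
            field_simp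
    have h6 := ((ent_le (w.transpose * w - 1) k k).trans hw).trans hq
    rw [Matrix.sub_apply, Matrix.one_apply_eq] at h6
    have h7 := (abs_le.mp h6).1
    have h8 : 3 / 4 ≤ (w.transpose * w) k k := by linarith
    have h9 : 3 / 4 ≤ ‖(w.transpose * w) k k‖ := h8.trans (le_abs_self _)
    linarith
  rw [Matrix.det_mul, h0, mul_zero] at hS
  exact hS rfl

lemma kap_set (m : ℕ) (hm1 : 1 ≤ m) : ∃ R : ℝ, 1 ≤ R ∧ ∀ w : Mat m,
    sz (w.transpose * w - 1) ≤ 1 / (4 * m) → sz w ≤ R ∧ R⁻¹ ≤ |w.det| ∧ |w.det| ≤ R := by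
  have hm0 : (1 : ℝ) ≤ m := by exact_mod_cast hm1
  have hq : 1 / (4 * (m : ℝ)) ≤ 1 / 4 := by
    rw [div_le_div_iff₀ (by positivity) (by norm_num)]
    linarith
  have h2 : ∀ w : Mat m, sz (w.transpose * w - 1) ≤ 1 / (4 * m) → sz w ≤ 2 := by
    intro w hw
    refine sz_le (by norm_num) fun i l => ?_
    have h1 := (ent_le (w.transpose * w - 1) l l).trans (hw.trans hq)
    rw [Matrix.sub_apply, Matrix.one_apply_eq, Matrix.mul_apply] at h1
    have h3 : (w i l) ^ 2 ≤ ∑ k, w.transpose l k * w k l := by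
      have h4 : (w i l) ^ 2 = w.transpose l i * w i l := by
        rw [Matrix.transpose_apply]
        ring
      rw [h4]
      exact Finset.single_le_sum (f := fun k => w.transpose l k * w k l) (fun k _ => by
        rw [Matrix.transpose_apply]
        exact mul_self_nonneg _) (Finset.mem_univ i)
    have h5 := (abs_le.mp h1).2
    exact abs_le_of_sq_le_sq (by nlinarith) (by norm_num)
  have hdc : Continuous (fun w : V m => (mt w).det) := by
    refine Continuous.matrix_det ?_
    exact continuous_id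
  have hcs : Continuous (fun w : V m => sz ((mt w).transpose * mt w - 1)) := by
    unfold sz
    refine continuous_norm.comp ?_
    refine continuous_pi fun i => continuous_pi fun j => ?_
    simp only [Matrix.sub_apply, Matrix.mul_apply, Matrix.transpose_apply, Matrix.of_apply]
    fun_prop
  have hK : IsCompact {w : V m | ‖w‖ ≤ 2 ∧ sz ((mt w).transpose * mt w - 1) ≤ 1 / (4 * m)} := by
    refine (isCompact_closedBall (0 : V m) 2).of_isClosed_subset ?_ fun w hw => ?_
    · exact (isClosed_le continuous_norm continuous_const).inter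
        (isClosed_le hcs continuous_const)
    · rw [mem_closedBall_zero_iff]
      exact hw.1
  obtain ⟨B1, hB1⟩ := hK.exists_bound_of_continuousOn
    (f := fun w : V m => (|(mt w).det|)⁻¹) (hdc.abs.continuousOn.inv₀ fun w hw =>
      abs_ne_zero.mpr (det_ne hm1 _ hw.2))
  obtain ⟨B2, hB2⟩ := hK.exists_bound_of_continuousOn hdc.continuousOn
  refine ⟨max (max 2 B1) B2, (by norm_num : (1 : ℝ) ≤ 2).trans
    ((le_max_left _ _).trans (le_max_left _ _)), fun w hw => ?_⟩
  have hwK : (fun i j => w i j : V m) ∈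
      {w : V m | ‖w‖ ≤ 2 ∧ sz ((mt w).transpose * mt w - 1) ≤ 1 / (4 * m)} := ⟨h2 w hw, hw⟩
  have hd := det_ne hm1 w hw
  refine ⟨(h2 w hw).trans ((le_max_left _ _).trans (le_max_left _ _)), ?_, ?_⟩
  · have h3 : (|w.det|)⁻¹ ≤ B1 := (le_abs_self _).trans (hB1 _ hwK)
    exact inv_le_of_inv_le₀ (abs_pos.mpr hd)
      (h3.trans ((le_max_right _ _).trans (le_max_left _ _)))
  · exact (hB2 _ hwK).trans (le_max_right _ _)

lemma Wt_eq {m : ℕ} {mu : Fin m → ℂ} (hmu : Monotone (fun j => (mu j).im)) :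
    ∏ i, ∏ l, (1 + gp (fun j => (mu j).im) i l)⁻¹ = (Wt mu)⁻¹ := by
  unfold Wt
  rw [Finset.prod_comm, ← Finset.prod_inv_distrib]
  refine Finset.prod_congr rfl fun l _ => ?_
  rw [← Finset.prod_inv_distrib]
  refine Finset.prod_congr rfl fun i _ => ?_
  by_cases h : l < i
  · rw [if_pos h]
    have h1 : (mu l).im ≤ (mu i).im := hmu h.le
    unfold gp
    rw [max_eq_right (sub_nonneg.mpr h1), abs_of_nonneg (sub_nonneg.mpr h1)]
  · rw [if_neg h]
    have h1 : (mu i).im ≤ (mu l).im := hmu (not_lt.mp h)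
    unfold gp
    rw [max_eq_left (sub_nonpos.mpr h1), add_zero]

lemma vk_meas {m : ℕ} (R : ℝ) (ν : Fin m → ℝ) (u : Mat m) :
    Measurable (fun w : V m => ENNReal.ofReal (vk R ν u (mt w))) := by
  have hcs : Measurable (fun w : V m => sz (mt w)) := by
    unfold sz
    exact measurable_norm
  have hcd : Measurable (fun w : V m => (mt w).det) := by
    refine Continuous.measurable ?_
    refine Continuous.matrix_det ?_
    exact continuous_id
  have hce : ∀ i l, Measurable (fun w : V m => (u * mt w) i l) := by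
    intro i l
    simp only [Matrix.mul_apply]
    refine Finset.measurable_sum _ fun j _ => ?_
    have h0 : Measurable (fun w : V m => w j l) := by fun_prop
    exact h0.const_mul _
  refine ENNReal.measurable_ofReal.comp ?_
  unfold vk
  refine Measurable.ite ?_ ?_ measurable_const
  · refine MeasurableSet.inter (measurableSet_le hcs measurable_const) ?_
    exact measurableSet_le measurable_const hcd.abs
  · refine Finset.measurable_prod _ fun i _ => Finset.measurable_prod _ fun l _ => ?_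
    exact ((((hce i l).abs.const_mul _).const_add 1).pow_const 2).inv

/-- row VOK -/
theorem pf_VOK (hH : T_HAR) : T_VOK := by
  intro m κ hm1 hκ
  have hm0 : (1 : ℝ) ≤ m := by exact_mod_cast hm1
  obtain ⟨R, hR, hRK⟩ := kap_set m hm1
  obtain ⟨K0, hK0, hK⟩ : ∃ K0 : ℝ, 0 < K0 ∧ ∀ w : V m, κ (mt w) ≤ K0 := by
    obtain ⟨B, hB⟩ := (isCompact_closedBall (0 : V m) R).exists_bound_of_continuousOn
      hκ.cont.continuousOn
    refine ⟨max B 1, lt_max_of_lt_right one_pos, fun w => ?_⟩
    by_cases hw : κ (mt w) = 0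
    · rw [hw]
      exact (lt_max_of_lt_right one_pos).le
    · have h1 := (hRK _ (hκ.supp _ hw)).1
      have h2 : w ∈ Metric.closedBall (0 : V m) R := by
        rw [mem_closedBall_zero_iff]
        exact h1
      exact (le_abs_self _).trans ((hB w h2).trans (le_max_left _ _))
  obtain ⟨C1, hC1, hvk⟩ := Pool.Agent.H69.GK.pf_VOK hH m hm1 R hR
  have hmm : (1 : ℝ) ≤ m * m := by nlinarith
  have hc1 : (1 : ℝ) ≤ 2 * (m * m) * R := by nlinarith
  refine ⟨2 * (m * m), K0 * (2 * (m * m) * R) ^ (2 * (m * m)) * R ^ m * C1, by positivity,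
    fun mu hmu w hw => ?_⟩
  obtain ⟨u, a, hu, hwu, ha, -⟩ := exists_qr w hw
  have hu2 : u.transpose * u.transpose.transpose = 1 := by
    rw [Matrix.transpose_transpose]
    exact mul_eq_one_comm.mp hu
  have hpt : ∀ w' : V m,
      ENNReal.ofReal (κ (mt w') * ((1 + Gg mu w (mt w')) ^ (2 * (m * m)))⁻¹) ≤
      ENNReal.ofReal (K0 * (2 * (m * m) * R) ^ (2 * (m * m)) * R ^ m) *
        ((fun z : V m => ENNReal.ofReal ((|(mt z).det| ^ m)⁻¹)) *
        (fun z : V m => ENNReal.ofReal (vk R (fun j => (mu j).im) u.transpose (mt z)))) w' := by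
    intro w'
    by_cases h0 : κ (mt w') = 0
    · rw [h0, zero_mul, ENNReal.ofReal_zero]
      exact bot_le
    · obtain ⟨h1, h2, h3⟩ := hRK _ (hκ.supp _ h0)
      have hRp : 0 < R⁻¹ := by positivity
      have hdp : 0 < |(mt w').det| := lt_of_lt_of_le hRp h2
      have hd : (mt w').det ≠ 0 := abs_pos.mp hdp
      have hG := Gg_nn hmu w (mt w')
      rw [Pi.mul_apply, ← ENNReal.ofReal_mul (by positivity), ← ENNReal.ofReal_mul (by positivity)]
      refine ENNReal.ofReal_le_ofReal ?_
      have hv : vk R (fun j => (mu j).im) u.transpose (mt w') =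
          ∏ i, ∏ l, ((1 + gp (fun j => (mu j).im) i l * |(u.transpose * mt w') i l|) ^ 2)⁻¹ := by
        unfold vk
        rw [if_pos ⟨h1, h2⟩]
      have hv1 : ((1 + Gg mu w (mt w')) ^ (2 * (m * m)))⁻¹ ≤
          (2 * (m * m) * R) ^ (2 * (m * m)) *
            vk R (fun j => (mu j).im) u.transpose (mt w') := by
        have h4 : ∏ _i : Fin m, ∏ _l : Fin m,
            ((2 * (m * m) * R * (1 + Gg mu w (mt w'))) ^ 2)⁻¹ ≤
            vk R (fun j => (mu j).im) u.transpose (mt w') := by
          rw [hv]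
          refine Finset.prod_le_prod (fun i _ => Finset.prod_nonneg fun l _ => by positivity)
            fun i _ => ?_
          refine Finset.prod_le_prod (fun l _ => by positivity) fun l _ => ?_
          have h5 := gp_le hmu hu hwu ha hd i l
          have h6 : 0 ≤ gp (fun j => (mu j).im) i l * |(u.transpose * mt w') i l| :=
            mul_nonneg (Pool.Agent.H69.GK.gp_nn _ _ _) (abs_nonneg _)
          have h7 : 2 * (m * m) * sz (mt w') * Gg mu w (mt w') ≤
              2 * (m * m) * R * Gg mu w (mt w') := by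
            refine mul_le_mul_of_nonneg_right ?_ hG
            exact mul_le_mul_of_nonneg_left h1 (by positivity)
          have h8 : 1 + gp (fun j => (mu j).im) i l * |(u.transpose * mt w') i l| ≤
              2 * (m * m) * R * (1 + Gg mu w (mt w')) := by
            rw [mul_add, mul_one]
            linarith
          refine inv_anti₀ (by positivity) ?_
          exact pow_le_pow_left₀ (by linarith) h8 2
        have h9 : ∏ _i : Fin m, ∏ _l : Fin m,
            ((2 * (m * m) * R * (1 + Gg mu w (mt w'))) ^ 2)⁻¹ =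
            ((2 * (m * m) * R) ^ (2 * (m * m)))⁻¹ *
              ((1 + Gg mu w (mt w')) ^ (2 * (m * m)))⁻¹ := by
          rw [Finset.prod_const, Finset.prod_const, Finset.card_fin, ← pow_mul, inv_pow, ← pow_mul,
            mul_pow, mul_inv]
        rw [h9] at h4
        have h10 : 0 < (2 * (m * m) * R) ^ (2 * (m * m)) := by positivity
        calc ((1 + Gg mu w (mt w')) ^ (2 * (m * m)))⁻¹ =
            (2 * (m * m) * R) ^ (2 * (m * m)) * (((2 * (m * m) * R) ^ (2 * (m * m)))⁻¹ *
              ((1 + Gg mu w (mt w')) ^ (2 * (m * m)))⁻¹) := by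
              rw [mul_inv_cancel_left₀ h10.ne']
          _ ≤ _ := mul_le_mul_of_nonneg_left h4 h10.le
      have hvn : 0 ≤ vk R (fun j => (mu j).im) u.transpose (mt w') := by
        rw [hv]
        exact Finset.prod_nonneg fun i _ => Finset.prod_nonneg fun l _ => by positivity
      have hdm : 1 ≤ R ^ m * (|(mt w').det| ^ m)⁻¹ := by
        rw [← div_eq_mul_inv, le_div_iff₀ (by positivity), one_mul]
        exact pow_le_pow_left₀ hdp.le h3 m
      calc κ (mt w') * ((1 + Gg mu w (mt w')) ^ (2 * (m * m)))⁻¹ ≤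
          K0 * ((2 * (m * m) * R) ^ (2 * (m * m)) *
            vk R (fun j => (mu j).im) u.transpose (mt w')) :=
            mul_le_mul (hK w') hv1 (by positivity) hK0.le
        _ ≤ K0 * ((2 * (m * m) * R) ^ (2 * (m * m)) *
            vk R (fun j => (mu j).im) u.transpose (mt w')) *
              (R ^ m * (|(mt w').det| ^ m)⁻¹) :=
            le_mul_of_one_le_right (by positivity) hdm
        _ = _ := by ring
  refine (lintegral_mono hpt).trans ?_
  have hwm : Measurable (fun z : V m => ENNReal.ofReal ((|(mt z).det| ^ m)⁻¹)) := by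
    have hcd : Measurable (fun w : V m => (mt w).det) := by
      refine Continuous.measurable ?_
      refine Continuous.matrix_det ?_
      exact continuous_id
    exact ENNReal.measurable_ofReal.comp ((hcd.abs.pow_const m).inv)
  have hvm := vk_meas (m := m) R (fun j => (mu j).im) u.transpose
  rw [lintegral_const_mul _ (hwm.mul hvm)]
  have h11 := hvk (fun j => (mu j).im) u.transpose hu2
  unfold hm at h11
  rw [lintegral_withDensity_eq_lintegral_mul _ hwm hvm, Wt_eq hmu] at h11
  refine (mul_le_mul_right h11 _).trans ?_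
  rw [← ENNReal.ofReal_mul (by positivity)]
  refine ENNReal.ofReal_le_ofReal (le_of_eq ?_)
  rw [div_eq_mul_inv]
  ring

end Pool.Agent.H96.GHK
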